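import Pool.Agent.Q8.GP.Sols

/-!
# Window sums of odd functions
-/

namespace Pool.Agent.Q8.GP

open Finset

/-- The part of a window which is symmetric to the centre does not contribute. -/
lemma sum_sym {g : ℤ → ℤ} {D : ℤ} (hodd : ∀ x, g (D - x) = -g x) {p : ℤ} {t : ℕ}
    (ht : (t : ℤ) = 2 * p - D) : ∑ k ∈ range (t + 1), g (p - k) = 0 := by
  have h1 := sum_range_reflect (fun k : ℕ => g (p - k)) (t + 1)
  have h2 : ∑ j ∈ range (t + 1), g (p - ((t + 1 - 1 - j : ℕ) : ℤ)) =
      -∑ k ∈ range (t + 1), g (p - k) := by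
    rw [← sum_neg_distrib]
    refine sum_congr rfl fun j hj => ?_
    rw [mem_range] at hj
    rw [← hodd]
    congr 1
    have : ((t + 1 - 1 - j : ℕ) : ℤ) = t - j := by omega
    rw [this, ht]
    ring
  rw [h2] at h1
  linarith

/-- The window sum splits off a symmetric part and nonnegative terms. -/
lemma window_ge {g : ℤ → ℤ} {D : ℤ} (hodd : ∀ x, g (D - x) = -g x)
    (hpos : ∀ x, 2 * x ≤ D → 0 ≤ g x) {β : ℕ} {p : ℤ} (hp : 2 * p ≤ D + β) :
    0 ≤ ∑ k ∈ range (β + 1), g (p - k) ∧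
      ∀ k : ℕ, k ≤ β → 2 * p - D < k → g (p - k) ≤ ∑ k ∈ range (β + 1), g (p - k) := by
  by_cases h : 2 * p < D
  · have hn : ∀ k ∈ range (β + 1), 0 ≤ g (p - k) := fun k _ => hpos _ (by omega)
    refine ⟨sum_nonneg hn, fun k hk _ => ?_⟩
    exact single_le_sum (f := fun k : ℕ => g (p - k)) hn (mem_range.2 (by omega))
  · obtain ⟨t, ht⟩ : ∃ t : ℕ, (t : ℤ) = 2 * p - D := ⟨(2 * p - D).toNat, by omega⟩
    obtain ⟨c, hc⟩ : ∃ c, β + 1 = (t + 1) + c := ⟨β - t, by omega⟩
    have e : ∑ k ∈ range (β + 1), g (p - k) = ∑ x ∈ range c, g (p - ((t + 1 + x : ℕ) : ℤ)) := by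
      rw [hc, sum_range_add, sum_sym hodd ht, zero_add]
    have hn : ∀ x ∈ range c, 0 ≤ g (p - ((t + 1 + x : ℕ) : ℤ)) := fun x _ => hpos _ (by
      push_cast; omega)
    rw [e]
    refine ⟨sum_nonneg hn, fun k hk hk2 => ?_⟩
    have h3 := single_le_sum (f := fun x : ℕ => g (p - ((t + 1 + x : ℕ) : ℤ))) hn
      (mem_range.2 (show k - (t + 1) < c by omega))
    have h4 : ((t + 1 + (k - (t + 1)) : ℕ) : ℤ) = k := by omega
    beta_reduce at h3
    rwa [h4] at h3

lemma window_odd {g : ℤ → ℤ} {D : ℤ} (hodd : ∀ x, g (D - x) = -g x) (β : ℕ) (p : ℤ) :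
    ∑ k ∈ range (β + 1), g (D + β - p - k) = -∑ k ∈ range (β + 1), g (p - k) := by
  rw [← sum_range_reflect (fun k : ℕ => g (D + β - p - k)), ← sum_neg_distrib]
  refine sum_congr rfl fun j hj => ?_
  rw [mem_range] at hj
  rw [← hodd]
  congr 1
  have : ((β + 1 - 1 - j : ℕ) : ℤ) = β - j := by omega
  rw [this]
  ring

/-- The gap function. -/
def gap (β : ℕ → ℕ) (d q : ℤ) (r : ℕ) (p : ℤ) : ℤ :=
  sols β r (p - q) - sols β r (p - (d - q))

/-- The sum of the first `r` terms. -/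
def tot (β : ℕ → ℕ) (d : ℤ) : ℕ → ℤ
  | 0 => d
  | r + 1 => tot β d r + β r

lemma gap_succ (β : ℕ → ℕ) (d q : ℤ) (r : ℕ) (p : ℤ) :
    gap β d q (r + 1) p = ∑ k ∈ range (β r + 1), gap β d q r (p - k) := by
  unfold gap
  rw [sum_sub_distrib]
  simp only [sols]
  push_cast
  congr 1
  · refine sum_congr rfl fun k _ => ?_
    congr 2
    ring
  · refine sum_congr rfl fun k _ => ?_
    congr 2
    ring

lemma gap_props (β : ℕ → ℕ) {d q : ℤ} (hq : 2 * q < d) : ∀ r,
    (∀ p, gap β d q r (tot β d r - p) = -gap β d q r p) ∧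
      ∀ p, 2 * p ≤ tot β d r → 0 ≤ gap β d q r p
  | 0 => by
    constructor
    · intro p
      simp only [gap, sols, tot]
      by_cases h1 : p = q
      · subst h1
        rw [if_neg (by omega), if_pos (by omega), if_pos (by omega), if_neg (by omega)]
        rfl
      · by_cases h2 : p = d - q
        · rw [if_pos (by omega), if_neg (by omega), if_neg (by omega), if_pos (by omega)]
          rfl
        · rw [if_neg (by omega), if_neg (by omega), if_neg (by omega), if_neg (by omega)]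
          rfl
    · intro p hp
      simp only [tot] at hp
      simp only [gap, sols]
      rw [if_neg (c := p - (d - q) = 0) (by omega)]
      split_ifs <;> simp
  | r + 1 => by
    obtain ⟨h1, h2⟩ := gap_props β hq r
    constructor
    · intro p
      rw [gap_succ, gap_succ]
      exact window_odd h1 (β r) p
    · intro p hp
      rw [gap_succ]
      exact (window_ge h1 h2 hp).1

/-- **The gap inequality.** -/
theorem gap_le {β : ℕ → ℕ} {d q : ℤ} (hq : 2 * q < d) {F : ℕ → ℤ → ℤ}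
    (hodd : ∀ r p, F r (tot β d r - p) = -F r p)
    (hpos : ∀ r p, 2 * p ≤ tot β d r → 0 ≤ F r p)
    (hstep : ∀ r p, 2 * p ≤ tot β d (r + 1) →
      ∑ k ∈ range (β r + 1), F r (p - k) ≤ F (r + 1) p) :
    ∀ r p, 2 * p ≤ tot β d r → F 0 q * gap β d q r p ≤ F r p
  | 0, p, hp => by
    simp only [tot] at hp
    simp only [gap, sols]
    rw [if_neg (c := p - (d - q) = 0) (by omega)]
    by_cases h : p = q
    · subst h
      rw [if_pos (by omega)]
      simp
    · rw [if_neg (by omega)]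
      simpa using hpos 0 p hp
  | r + 1, p, hp => by
    have IH := gap_le hq hodd hpos hstep r
    obtain ⟨g1, g2⟩ := gap_props β hq r
    have h3 := (window_ge (g := fun p => F r p - F 0 q * gap β d q r p) (D := tot β d r)
      (fun x => by rw [hodd, g1]; ring) (fun x hx => sub_nonneg.2 (IH x hx))
      (β := β r) (p := p) hp).1
    rw [sum_sub_distrib, ← mul_sum, ← gap_succ, sub_nonneg] at h3
    exact h3.trans (hstep r p hp)

/-- The sum of the gap functions with the values of `f` below the centre. -/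
def gsum (β : ℕ → ℕ) (d : ℕ) (f : ℤ → ℤ) (r : ℕ) (p : ℤ) : ℤ :=
  ∑ q ∈ range ((d + 1) / 2), f q * gap β d q r p

lemma gsum_zero {β : ℕ → ℕ} {d : ℕ} {f : ℤ → ℤ} (hodd : ∀ x, f (d - x) = -f x)
    (hneg : ∀ x < 0, f x = 0) (p : ℤ) : gsum β d f 0 p = f p := by
  unfold gsum
  have hg : ∀ q : ℕ, gap β d q 0 p = (if p = q then 1 else 0) - (if p = d - q then 1 else 0) := by
    intro q
    simp only [gap, sols]
    congr 1
    · by_cases h : p = q
      · rw [if_pos (by omega), if_pos h]; rfl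
      · rw [if_neg (by omega), if_neg h]; rfl
    · by_cases h : p = d - q
      · rw [if_pos (by omega), if_pos h]; rfl
      · rw [if_neg (by omega), if_neg h]; rfl
  by_cases h1 : p < 0
  · rw [hneg p h1]
    refine sum_eq_zero fun q hq => ?_
    rw [mem_range] at hq
    rw [hg, if_neg (by omega), if_neg (by omega)]
    simp
  by_cases h2 : (d : ℤ) < p
  · have h3 := hodd p
    rw [hneg _ (by omega)] at h3
    rw [show f p = 0 by linarith]
    refine sum_eq_zero fun q hq => ?_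
    rw [mem_range] at hq
    rw [hg, if_neg (by omega), if_neg (by omega)]
    simp
  rcases lt_trichotomy (2 * p) d with h | h | h
  · obtain ⟨q, rfl⟩ : ∃ q : ℕ, (q : ℤ) = p := ⟨p.toNat, by omega⟩
    rw [sum_eq_single q]
    · rw [hg, if_pos rfl, if_neg (by omega)]
      ring
    · intro j hj hjq
      rw [mem_range] at hj
      rw [hg, if_neg (by omega), if_neg (by omega)]
      simp
    · intro hq
      rw [mem_range] at hq
      omega
  · have h3 := hodd p
    rw [show (d : ℤ) - p = p by omega] at h3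
    rw [show f p = 0 by linarith]
    refine sum_eq_zero fun q hq => ?_
    rw [mem_range] at hq
    rw [hg, if_neg (by omega), if_neg (by omega)]
    simp
  · obtain ⟨q, hq⟩ : ∃ q : ℕ, (q : ℤ) = d - p := ⟨(d - p).toNat, by omega⟩
    rw [sum_eq_single q]
    · rw [hg, if_neg (by omega), if_pos (by omega), hq, hodd]
      ring
    · intro j hj hjq
      rw [mem_range] at hj
      rw [hg, if_neg (by omega), if_neg (by omega)]
      simp
    · intro hq'
      rw [mem_range] at hq'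
      omega

lemma gsum_succ (β : ℕ → ℕ) (d : ℕ) (f : ℤ → ℤ) (r : ℕ) (p : ℤ) :
    gsum β d f (r + 1) p = ∑ k ∈ range (β r + 1), gsum β d f r (p - k) := by
  unfold gsum
  rw [sum_comm]
  refine sum_congr rfl fun q _ => ?_
  rw [gap_succ, mul_sum]

lemma gsum_odd (β : ℕ → ℕ) (d : ℕ) (f : ℤ → ℤ) (r : ℕ) (p : ℤ) :
    gsum β d f r (tot β d r - p) = -gsum β d f r p := by
  unfold gsum
  rw [← sum_neg_distrib]
  refine sum_congr rfl fun q hq => ?_
  rw [mem_range] at hq
  rw [(gap_props β (show 2 * (q : ℤ) < d by omega) r).1]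
  ring

/-- **The sharp inequality.** -/
theorem gsum_le {β : ℕ → ℕ} {d : ℕ} {F : ℕ → ℤ → ℤ}
    (hodd : ∀ r p, F r (tot β d r - p) = -F r p) (hneg : ∀ p < 0, F 0 p = 0)
    (hstep : ∀ r p, 2 * p ≤ tot β d (r + 1) →
      ∑ k ∈ range (β r + 1), F r (p - k) ≤ F (r + 1) p) :
    ∀ r p, 2 * p ≤ tot β d r → gsum β d (F 0) r p ≤ F r p
  | 0, p, _ => (gsum_zero (hodd 0) hneg p).le
  | r + 1, p, hp => by
    have IH := gsum_le hodd hneg hstep r
    have h3 := (window_ge (g := fun p => F r p - gsum β d (F 0) r p) (D := tot β d r)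
      (fun x => by rw [hodd, gsum_odd]; ring) (fun x hx => sub_nonneg.2 (IH x hx))
      (β := β r) (p := p) hp).1
    rw [sum_sub_distrib, ← gsum_succ, sub_nonneg] at h3
    exact h3.trans (hstep r p hp)

/-- The case of equality. -/
theorem gsum_eq {β : ℕ → ℕ} {d : ℕ} {F : ℕ → ℤ → ℤ}
    (hodd : ∀ p, F 0 (d - p) = -F 0 p) (hneg : ∀ p < 0, F 0 p = 0) :
    ∀ r, (∀ s < r, ∀ p, F (s + 1) p = ∑ k ∈ range (β s + 1), F s (p - k)) →
      ∀ p, F r p = gsum β d (F 0) r p
  | 0, _, p => (gsum_zero hodd hneg p).symm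
  | r + 1, hstep, p => by
    rw [hstep r (Nat.lt_succ_self r), gsum_succ]
    exact sum_congr rfl fun k _ => gsum_eq hodd hneg r (fun s hs => hstep s (by omega)) _

/-- The sum of the first terms, for the powers. -/
lemma tot_const (n : ℕ) (r : ℕ) : tot (fun _ => n) (2 * n : ℤ) r = (r + 2) * n := by
  induction r with
  | zero => simp only [tot]; push_cast; ring
  | succ r ih => simp only [tot]; rw [ih]; push_cast; ring

lemma gap_zero_self {d q : ℤ} (hq : 2 * q < d) (β : ℕ → ℕ) : gap β d q 0 q = 1 := by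
  simp only [gap, sols]
  rw [if_pos (by omega), if_neg (by omega)]
  rfl

lemma gap_mono {n : ℕ} {q : ℤ} (hq : q < n) (r : ℕ) (p : ℤ) (k : ℕ)
    (h1 : 2 * p ≤ (r + 3) * n) (h2 : k ≤ n) (h3 : 2 * p - (r + 2) * n < k) :
    gap (fun _ => n) (2 * n) q r (p - k) ≤ gap (fun _ => n) (2 * n) q (r + 1) p := by
  obtain ⟨g1, g2⟩ := gap_props (fun _ => n) (show 2 * q < 2 * n by omega) r
  rw [tot_const] at g1 g2
  rw [gap_succ]
  exact (window_ge g1 g2 (β := n) (p := p) (by linarith)).2 k h2 h3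

/-- One extra factor. -/
theorem one_le_gap_one {n : ℕ} {q : ℤ} (hq : q < n) {p : ℤ} (h1 : q ≤ p) (h2 : p ≤ q + n)
    (h3 : p < 2 * n - q) (h4 : 2 * p ≤ 3 * n) : 1 ≤ gap (fun _ => n) (2 * n) q 1 p := by
  obtain ⟨k, hk⟩ : ∃ k : ℕ, p - k = q := ⟨(p - q).toNat, by omega⟩
  have := gap_mono hq 0 p k (by push_cast; linarith) (by omega) (by push_cast; linarith)
  rwa [hk, gap_zero_self (by omega)] at this

/-- The gap is at least one in the whole range for the powers. -/
theorem one_le_gap {n : ℕ} {q : ℤ} (hq0 : 0 ≤ q) (hq : q < n) : ∀ r : ℕ, 2 ≤ r → ∀ p : ℤ,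
    q ≤ p → 2 * p < ((r : ℤ) + 2) * n → 1 ≤ gap (fun _ => n) (2 * n) q r p := by
  intro r hr
  induction r, hr using Nat.le_induction with
  | base =>
    intro p hp1 hp2
    push_cast at hp2
    by_cases hc : p - q ≤ n
    · obtain ⟨k, hk⟩ : ∃ k : ℕ, p - k = q := ⟨(p - q).toNat, by omega⟩
      have := gap_mono hq 1 p k (by push_cast; linarith) (by omega) (by push_cast; linarith)
      rw [hk] at this
      exact (one_le_gap_one hq le_rfl (by omega) (by omega) (by omega)).trans this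
    · have := gap_mono hq 1 p n (by push_cast; linarith) le_rfl (by push_cast; linarith)
      exact (one_le_gap_one hq (by omega) (by omega) (by omega) (by omega)).trans this
  | succ r hr ih =>
    intro p hp1 hp2
    push_cast at hp2
    have hr' : (2 : ℤ) ≤ r := by exact_mod_cast hr
    have hn0 : (0 : ℤ) ≤ n := Int.natCast_nonneg n
    have hrn : 2 * (n : ℤ) ≤ r * n := mul_le_mul_of_nonneg_right hr' hn0
    by_cases hc : p - q ≤ n
    · obtain ⟨k, hk⟩ : ∃ k : ℕ, p - k = q := ⟨(p - q).toNat, by omega⟩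
      have := gap_mono hq r p k (by linarith) (by omega) (by
        have : (p : ℤ) < (r + 2) * n - q := by
          have : (r + 2 : ℤ) * n = r * n + 2 * n := by ring
          omega
        linarith)
      rw [hk] at this
      refine (ih q le_rfl ?_).trans this
      have : (r + 2 : ℤ) * n = r * n + 2 * n := by ring
      omega
    · have := gap_mono hq r p n (by linarith) le_rfl (by linarith)
      exact (ih _ (by omega) (by linarith)).trans this

/-- The number of all vectors. -/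
lemma sum_sols (n : ℕ) : ∀ (r : ℕ) (a b : ℤ), a ≤ 0 → (r : ℤ) * n ≤ b →
    ∑ t ∈ Icc a b, sols (fun _ => n) r t = (n + 1) ^ r
  | 0, a, b, ha, hb => by
    rw [Nat.cast_zero, zero_mul] at hb
    simp only [sols]
    rw [sum_ite_eq', if_pos (mem_Icc.2 ⟨ha, hb⟩), pow_zero]
  | r + 1, a, b, ha, hb => by
    simp only [sols]
    rw [sum_comm]
    have h : ∀ k ∈ range (n + 1), ∑ t ∈ Icc a b, sols (fun _ => n) r (t - k) = (n + 1) ^ r := by
      intro k hk
      rw [mem_range] at hk
      rw [← sum_sols n r (a - k) (b - k) (by omega) (by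
        push_cast at hb
        have : (r + 1 : ℤ) * n = r * n + n := by ring
        omega)]
      refine sum_nbij' (fun t => t - k) (fun t => t + k) ?_ ?_ ?_ ?_ ?_
      · intro t ht; rw [mem_Icc] at ht ⊢; omega
      · intro t ht; rw [mem_Icc] at ht ⊢; omega
      · intro t _; ring
      · intro t _; ring
      · intro t _; rfl
    rw [sum_congr rfl h, sum_const, card_range, smul_eq_mul, pow_succ']

lemma sols_neg (β : ℕ → ℕ) : ∀ (r : ℕ) (t : ℤ), t < 0 → sols β r t = 0
  | 0, t, ht => by simp only [sols]; rw [if_neg (by omega)]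
  | r + 1, t, ht => by
    simp only [sols]
    exact sum_eq_zero fun k _ => sols_neg β r _ (by omega)

lemma tot_const' (n : ℕ) (r : ℕ) : tot (fun _ => n) (1 : ℤ) r = r * n + 1 := by
  induction r with
  | zero => simp only [tot]; push_cast; ring
  | succ r ih => simp only [tot]; rw [ih]; push_cast; ring

/-- The central number is the largest one. -/
lemma sols_le (n r : ℕ) (t : ℤ) :
    sols (fun _ => n) r t ≤ sols (fun _ => n) r ((r * n / 2 : ℕ) : ℤ) := by
  obtain ⟨g1, g2⟩ := gap_props (fun _ => n) (show 2 * (0 : ℤ) < 1 by norm_num) r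
  rw [tot_const'] at g1 g2
  have hg : ∀ p : ℤ, gap (fun _ => n) 1 0 r p =
      sols (fun _ => n) r p - sols (fun _ => n) r (p - 1) := by
    intro p
    unfold gap
    rw [sub_zero, sub_zero]
  have hup : ∀ p : ℤ, 2 * p ≤ r * n + 1 → sols (fun _ => n) r (p - 1) ≤ sols (fun _ => n) r p := by
    intro p hp
    have := g2 p hp
    rw [hg] at this
    omega
  have hdown : ∀ p : ℤ, r * n + 1 ≤ 2 * p → sols (fun _ => n) r p ≤ sols (fun _ => n) r (p - 1) := by
    intro p hp
    have h1 := g2 (r * n + 1 - p) (by linarith)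
    rw [g1, hg] at h1
    omega
  have hc : ((r * n : ℕ) : ℤ) = r * n := by push_cast; ring
  have h1 : ∀ j : ℕ, sols (fun _ => n) r (((r * n / 2 : ℕ) : ℤ) - j) ≤
      sols (fun _ => n) r ((r * n / 2 : ℕ) : ℤ) := by
    intro j
    induction j with
    | zero => rw [Nat.cast_zero, sub_zero]
    | succ j ih =>
      refine le_trans ?_ ih
      have := hup (((r * n / 2 : ℕ) : ℤ) - j) (by rw [← hc]; omega)
      rwa [show ((r * n / 2 : ℕ) : ℤ) - j - 1 = ((r * n / 2 : ℕ) : ℤ) - ((j + 1 : ℕ) : ℤ) by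
        push_cast; ring] at this
  have h2 : ∀ j : ℕ, sols (fun _ => n) r (((r * n / 2 : ℕ) : ℤ) + j) ≤
      sols (fun _ => n) r ((r * n / 2 : ℕ) : ℤ) := by
    intro j
    induction j with
    | zero => rw [Nat.cast_zero, add_zero]
    | succ j ih =>
      refine le_trans ?_ ih
      have := hdown (((r * n / 2 : ℕ) : ℤ) + ((j + 1 : ℕ) : ℤ)) (by rw [← hc]; omega)
      rwa [show ((r * n / 2 : ℕ) : ℤ) + ((j + 1 : ℕ) : ℤ) - 1 = ((r * n / 2 : ℕ) : ℤ) + j by
        push_cast; ring] at this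
  rcases le_total t ((r * n / 2 : ℕ) : ℤ) with h | h
  · have := h1 (((r * n / 2 : ℕ) : ℤ) - t).toNat
    rwa [show ((r * n / 2 : ℕ) : ℤ) - ((((r * n / 2 : ℕ) : ℤ) - t).toNat : ℤ) = t by omega] at this
  · have := h2 (t - ((r * n / 2 : ℕ) : ℤ)).toNat
    rwa [show ((r * n / 2 : ℕ) : ℤ) + ((t - ((r * n / 2 : ℕ) : ℤ)).toNat : ℤ) = t by omega] at this

/-- The central number. -/
lemma sols_mid (n r : ℕ) :
    (n + 1) ^ r ≤ (r * n + 1) * sols (fun _ => n) r ((r * n / 2 : ℕ) : ℤ) := by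
  rw [← sum_sols n r 0 ((r * n : ℕ) : ℤ) le_rfl (by push_cast; exact le_rfl)]
  refine le_trans (sum_le_card_nsmul _ _ _ fun t _ => sols_le n r t) ?_
  rw [Int.card_Icc, smul_eq_mul]
  apply Nat.mul_le_mul_right
  omega

/-- The sum of the gaps. -/
lemma sum_gap {n : ℕ} (r : ℕ) : ∀ P : ℕ,
    ∑ p ∈ range (P + 1), gap (fun _ => n) (2 * n) (n - 1) r p =
      sols (fun _ => n) r ((P : ℤ) - n + 1) + sols (fun _ => n) r ((P : ℤ) - n) -
        (sols (fun _ => n) r (-(n : ℤ)) : ℤ)
  | 0 => by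
    rw [zero_add, sum_range_one]
    unfold gap
    rw [sols_neg _ r (((0 : ℕ) : ℤ) - (2 * n - (n - 1))) (by push_cast; omega)]
    simp only [Nat.cast_zero]
    rw [show (0 : ℤ) - (n - 1) = 0 - n + 1 by ring, zero_sub]
    ring
  | P + 1 => by
    rw [sum_range_succ, sum_gap r P]
    unfold gap
    rw [show ((P + 1 : ℕ) : ℤ) - (n - 1) = ((P + 1 : ℕ) : ℤ) - n + 1 by ring,
      show ((P + 1 : ℕ) : ℤ) - (2 * n - (n - 1)) = (P : ℤ) - n by push_cast; ring,
      show ((P + 1 : ℕ) : ℤ) - n = (P : ℤ) - n + 1 by push_cast; ring]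
    ring

/-- The sum of the gaps is large. -/
theorem sum_gap_ge {n : ℕ} (hn : 1 ≤ n) (r : ℕ) : ((n + 1) ^ r : ℤ) ≤
    (r * n + 1) * ∑ p ∈ range ((r + 2) * n / 2 + 1), gap (fun _ => n) (2 * n) (n - 1) r p := by
  rw [sum_gap, sols_neg _ r (-(n : ℤ)) (by omega)]
  have h1 : (((r + 2) * n / 2 : ℕ) : ℤ) - n = ((r * n / 2 : ℕ) : ℤ) := by
    have : (r + 2) * n = r * n + 2 * n := by ring
    omega
  rw [h1]
  have h2 := sols_mid n r
  have h3 : (((n + 1) ^ r : ℕ) : ℤ) ≤
      (((r * n + 1) * sols (fun _ => n) r ((r * n / 2 : ℕ) : ℤ) : ℕ) : ℤ) := by exact_mod_cast h2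
  rw [Nat.cast_mul] at h3
  have h4 : (0 : ℤ) ≤ ((r * n + 1 : ℕ) : ℤ) *
      sols (fun _ => n) r (((r * n / 2 : ℕ) : ℤ) + 1) := by positivity
  push_cast at h3 h4 ⊢
  linarith

end Pool.Agent.Q8.GP
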