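import Pool.Agent.Q8.GP.Comb
import Pool.Agent.W534.UDefs
import Pool.Agent.Q8.OL.Defs

/-!
# The defect of the conjecture A: definitions
-/

open CategoryTheory AlgebraicGeometry

universe u v

namespace Pool.Agent.Q8.GP

open Pool.Agent.H914 Pool.Agent.H914.VarClass Pool.Agent.H914.VarClass.Obj
  Pool.Agent.H914.WeilCohomology Pool.Agent.W534

variable {k : Type u} [Field k] {𝒱 : VarClass k} {ops : CycleOps 𝒱}

/-- The defect of `Y` in the codimension `p`: the dimension, over the coefficient field of the
theory, of the span of the classes of the cycles of codimension `dim Y - p` minus the dimension of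
the span of the classes of the cycles of codimension `p`. -/
noncomputable def defect (W : WeilCohomology.{u, v} ops) (Y : 𝒱.Obj) (p : ℤ) : ℤ :=
  (cycleRank W Y (Y.dim - p) : ℤ) - cycleRank W Y p

/-- The product of `Y` and the first `r` of the varieties `Z 0, Z 1, ...`. -/
noncomputable def tower (Y : 𝒱.Obj) (Z : ℕ → 𝒱.Obj) : ℕ → 𝒱.Obj
  | 0 => Y
  | r + 1 => (tower Y Z r).prod (Z r)

end Pool.Agent.Q8.GP
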