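import Pool.Agent.Q8.GP.Prod
import Pool.Agent.Q8.GP.Defs

/-!
# The gap theorem
-/

open CategoryTheory AlgebraicGeometry

universe u v

namespace Pool.Agent.Q8.GP

open Module
open Pool.Agent.H914 Pool.Agent.H914.VarClass Pool.Agent.H914.VarClass.Obj
  Pool.Agent.H914.WeilCohomology Pool.Agent.Y133.Half Pool.Agent.Q55.Fin Pool.Agent.Q8.KC
  Pool.Agent.TH133.PW Pool.Agent.W536.RR Pool.Agent.H281R3.HT Pool.Agent.W550.B
  Pool.Agent.Q8.OL Pool.Agent.W534 Pool.Agent.H447

variable {k : Type u} [Field k] {𝒱 : VarClass k} {ops : CycleOps 𝒱}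
  {W : WeilCohomology.{u, v} ops} {X Y : 𝒱.Obj} {Z : ℕ → 𝒱.Obj}

lemma defect_neg {p : ℤ} (hp : p < 0) : defect W Y p = 0 := by
  unfold defect cycleRank
  rw [sc_bot (Or.inl hp), sc_bot (Or.inr (by omega)), finrank_bot, Nat.cast_zero, sub_zero]

lemma tower_lef {E : Y.Cycles} {F : ∀ i, (Z i).Cycles} (hY : IsLefschetzDivisor W Y E)
    (hZ : ∀ i, IsLefschetzDivisor W (Z i) (F i)) :
    ∀ r, ∃ G, IsLefschetzDivisor W (tower Y Z r) G
  | 0 => ⟨E, hY⟩
  | r + 1 => by
    obtain ⟨G, hG⟩ := tower_lef hY hZ r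
    exact ⟨_, Pool.Agent.Q55.Oc.isLefschetzDivisor_prod hG (hZ r)⟩

lemma dim_tower (Y : 𝒱.Obj) (Z : ℕ → 𝒱.Obj) : ∀ r,
    ((tower Y Z r).dim : ℤ) = tot (fun i => (Z i).dim) Y.dim r
  | 0 => rfl
  | r + 1 => by
    have h := dim_tower Y Z r
    have h2 : (tower Y Z (r + 1)).dim = (tower Y Z r).dim + (Z r).dim := dim_prod _ _
    rw [h2]
    simp only [tot]
    push_cast
    rw [h]

/-- **The gap theorem for products.** -/
theorem tower_defect {E : Y.Cycles} {F : ∀ i, (Z i).Cycles} (hY : IsLefschetzDivisor W Y E)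
    (hnt : ∀ i, Nontrivial (W.H (Z i))) (hZ : ∀ i, IsLefschetzDivisor W (Z i) (F i)) (r : ℕ)
    {q p : ℤ} (hq : 2 * q < Y.dim) (hp : 2 * p ≤ (tower Y Z r).dim) :
    defect W Y q * gap (fun i => (Z i).dim) Y.dim q r p ≤ defect W (tower Y Z r) p := by
  rw [dim_tower] at hp
  refine gap_le (F := fun r p => defect W (tower Y Z r) p) hq ?_ ?_ ?_ r p hp
  · intro r p
    rw [← dim_tower]
    exact defect_odd p
  · intro r p hp
    rw [← dim_tower] at hp
    obtain ⟨G, hG⟩ := tower_lef hY hZ r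
    exact defect_nonneg hG hp
  · intro r p hp
    obtain ⟨G, hG⟩ := tower_lef hY hZ r
    haveI := hnt r
    rw [← dim_tower] at hp
    exact defect_step hG (hZ r) hp

/-- **The sharp inequality for products.** -/
theorem tower_sum {E : Y.Cycles} {F : ∀ i, (Z i).Cycles} (hY : IsLefschetzDivisor W Y E)
    (hnt : ∀ i, Nontrivial (W.H (Z i))) (hZ : ∀ i, IsLefschetzDivisor W (Z i) (F i)) (r : ℕ)
    {p : ℤ} (hp : 2 * p ≤ (tower Y Z r).dim) :
    gsum (fun i => (Z i).dim) Y.dim (defect W Y) r p ≤ defect W (tower Y Z r) p := by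
  rw [dim_tower] at hp
  refine gsum_le (F := fun r p => defect W (tower Y Z r) p) ?_ ?_ ?_ r p hp
  · intro r p
    rw [← dim_tower]
    exact defect_odd p
  · intro p hp
    exact defect_neg hp
  · intro r p hp
    obtain ⟨G, hG⟩ := tower_lef hY hZ r
    haveI := hnt r
    rw [← dim_tower] at hp
    exact defect_step hG (hZ r) hp

/-- The case of equality. -/
theorem tower_eq {F : ∀ i, (Z i).Cycles} (hnt : ∀ i, Nontrivial (W.H (Z i)))
    (hZ : ∀ i, IsLefschetzDivisor W (Z i) (F i)) (r : ℕ)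
    (hr : ∀ i < r, finrank W.K (W.H (Z i)) = (Z i).dim + 1) (p : ℤ) :
    defect W (tower Y Z r) p = gsum (fun i => (Z i).dim) Y.dim (defect W Y) r p := by
  refine gsum_eq (F := fun r p => defect W (tower Y Z r) p) ?_ ?_ r ?_ p
  · intro p
    exact defect_odd p
  · intro p hp
    exact defect_neg hp
  · intro s hs p
    haveI := hnt s
    exact defect_step_eq (hZ s) (hr s hs) p

/-- **The gap theorem for powers.** -/
theorem pw_defect [Nontrivial (W.H X)] {D : X.Cycles} (hX : IsLefschetzDivisor W X D) (r : ℕ)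
    {q p : ℤ} (hq : q < X.dim) (hp : 2 * p ≤ ((r : ℤ) + 2) * X.dim) :
    defect W (X.prod X) q * gap (fun _ => X.dim) (2 * X.dim) q r p ≤
      defect W (pw X (r + 1)) p := by
  have hd : ∀ r : ℕ, ((pw X (r + 1)).dim : ℤ) = tot (fun _ => X.dim) (2 * X.dim : ℤ) r := by
    intro r
    rw [tot_const, dim_pw]
    push_cast
    ring
  refine gap_le (F := fun r p => defect W (pw X (r + 1)) p) (by omega) ?_ ?_ ?_ r p (by
    rw [tot_const]; exact hp)
  · intro r p
    rw [← hd]
    exact defect_odd p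
  · intro r p hp
    rw [← hd] at hp
    exact defect_nonneg (lef_pw hX (r + 1)) hp
  · intro r p hp
    rw [← hd] at hp
    exact defect_step (lef_pw hX (r + 1)) hX hp

/-- **The sharp inequality for powers.** -/
theorem pw_sum [Nontrivial (W.H X)] {D : X.Cycles} (hX : IsLefschetzDivisor W X D) (r : ℕ)
    {p : ℤ} (hp : 2 * p ≤ ((r : ℤ) + 2) * X.dim) :
    gsum (fun _ => X.dim) (2 * X.dim) (defect W (X.prod X)) r p ≤ defect W (pw X (r + 1)) p := by
  have hd : ∀ r : ℕ, ((pw X (r + 1)).dim : ℤ) =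
      tot (fun _ => X.dim) ((2 * X.dim : ℕ) : ℤ) r := by
    intro r
    have h := tot_const X.dim r
    push_cast
    rw [h, dim_pw]
    push_cast
    ring
  refine gsum_le (F := fun r p => defect W (pw X (r + 1)) p) ?_ ?_ ?_ r p (by
    rw [← hd, dim_pw]; push_cast; linarith)
  · intro r p
    rw [← hd]
    exact defect_odd p
  · intro p hp
    exact defect_neg hp
  · intro r p hp
    rw [← hd] at hp
    exact defect_step (lef_pw hX (r + 1)) hX hp

/-- The conjecture A in one codimension kills the defect. -/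
theorem defect_of_A {E : Y.Cycles} (hY : IsLefschetzDivisor W Y E) {p : ℕ} (hp : 2 * p ≤ Y.dim)
    (hA : LefschetzAIn W Y E p) : defect W Y p = 0 := by
  refine le_antisymm ?_ (defect_nonneg hY (by exact_mod_cast hp))
  unfold defect cycleRank
  rw [sub_nonpos, Nat.cast_le]
  refine le_trans (Submodule.finrank_mono (t := (spanCycles W Y p).map
    (LD W E ^ (Y.dim - 2 * p))) ?_) (Submodule.finrank_map_le _ _)
  refine Submodule.span_le.2 ?_
  rintro _ ⟨j, hj, z, hz, rfl⟩
  obtain rfl : j = Y.dim - p := by omega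
  obtain ⟨z', hz', h2⟩ := hA z hz
  refine ⟨W.cl Y z', Submodule.subset_span ⟨p, rfl, z', hz', rfl⟩, ?_⟩
  rw [← h2, cl_divPow]

/-- The conjecture A for the powers follows from B. -/
lemma A_of_B {D : X.Cycles} (hX : IsLefschetzDivisor W X D) (h : LefschetzB W X D) (m : ℕ) {p : ℕ}
    (hp : 2 * p ≤ (pw X m).dim) : LefschetzAIn W (pw X m) (pwD ops D m) p :=
  Pool.Agent.Q55.Oc.lefschetzA_of_std
    (Pool.Agent.Q55.Oc.std_of_lefschetzB (lef_pw hX m) (lefschetzB_pw hX h m)) p hp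

theorem B_of_defect {D : X.Cycles} (hX : IsLefschetzDivisor W X D)
    (h : defect W (X.prod X) (X.dim - 1) = 0) : LefschetzB W X D := by
  refine lefschetzB_of_rank hX.1 hX.2 ?_
  unfold defect at h
  rw [dim_prod, show ((X.dim + X.dim : ℕ) : ℤ) - (X.dim - 1) = X.dim + 1 by push_cast; ring] at h
  omega

/-- **The dichotomy for powers.** -/
theorem pw_tfae [Nontrivial (W.H X)] {D : X.Cycles} (hX : IsLefschetzDivisor W X D) {r p : ℕ}
    (hp : 2 * p ≤ (r + 2) * X.dim)
    (hgap : 1 ≤ gap (fun _ => X.dim) (2 * X.dim) (X.dim - 1) r p) :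
    List.TFAE [LefschetzAIn W (pw X (r + 1)) (pwD ops D (r + 1)) p,
      defect W (pw X (r + 1)) p = 0,
      defect W (pw X (r + 1)) p < gap (fun _ => X.dim) (2 * X.dim) (X.dim - 1) r p,
      LefschetzB W X D, ∀ n, LefschetzB W (pw X n) (pwD ops D n)] := by
  have hp' : 2 * p ≤ (pw X (r + 1)).dim := by
    rw [dim_pw]
    linarith
  have hp2 : 2 * (p : ℤ) ≤ ((r : ℤ) + 2) * X.dim := by exact_mod_cast hp
  tfae_have 1 → 2 := defect_of_A (lef_pw hX (r + 1)) hp'
  tfae_have 2 → 3 := fun h => by rw [h]; omega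
  tfae_have 3 → 4 := by
    intro h
    have h1 := (pw_defect hX r (q := X.dim - 1) (by omega) hp2).trans_lt h
    have h2 : 0 ≤ defect W (X.prod X) (X.dim - 1) :=
      defect_nonneg (lef_pw hX 1) (by
        show 2 * ((X.dim : ℤ) - 1) ≤ (pw X 1).dim
        rw [dim_pw]
        push_cast
        linarith)
    apply B_of_defect hX
    by_contra h3
    have h4 : 1 ≤ defect W (X.prod X) (X.dim - 1) := by omega
    nlinarith
  tfae_have 4 → 5 := fun h n => lefschetzB_pw hX h n
  tfae_have 5 → 4 := fun h => h 0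
  tfae_have 4 → 1 := fun h => A_of_B hX h (r + 1) hp'
  tfae_finish

/-- **The total defect.** -/
theorem total_defect [Nontrivial (W.H X)] {D : X.Cycles} (hX : IsLefschetzDivisor W X D)
    (hn : 1 ≤ X.dim) (hB : ¬ LefschetzB W X D) (r : ℕ) :
    ((X.dim + 1) ^ r : ℤ) ≤ (r * X.dim + 1) *
      ∑ p ∈ Finset.range ((r + 2) * X.dim / 2 + 1), defect W (pw X (r + 1)) p := by
  refine (sum_gap_ge hn r).trans ?_
  apply mul_le_mul_of_nonneg_left _ (by positivity)
  refine Finset.sum_le_sum fun p hp => ?_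
  rw [Finset.mem_range] at hp
  have hp2 : 2 * p ≤ (r + 2) * X.dim := by omega
  have hp3 : 2 * (p : ℤ) ≤ ((r : ℤ) + 2) * X.dim := by exact_mod_cast hp2
  have h1 := pw_defect hX r (q := X.dim - 1) (p := p) (by omega) hp3
  have h2 : 0 ≤ defect W (X.prod X) (X.dim - 1) :=
    defect_nonneg (lef_pw hX 1) (by
      show 2 * ((X.dim : ℤ) - 1) ≤ (pw X 1).dim
      rw [dim_pw]
      push_cast
      linarith)
  have h4 : 1 ≤ defect W (X.prod X) (X.dim - 1) := by
    by_contra h3
    exact hB (B_of_defect hX (by omega))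
  have h5 : 0 ≤ gap (fun _ => X.dim) (2 * X.dim) (X.dim - 1) r p :=
    (gap_props (fun _ => X.dim) (show 2 * ((X.dim : ℤ) - 1) < 2 * X.dim by omega) r).2 p (by
      rw [tot_const]; exact hp3)
  nlinarith

end Pool.Agent.Q8.GP
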