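import Pool.Agent.Q8.GP.Step

/-!
# The defect of a product: the inequality
-/

open CategoryTheory AlgebraicGeometry

universe u v

namespace Pool.Agent.Q8.GP

open Module
open Pool.Agent.H914 Pool.Agent.H914.VarClass Pool.Agent.H914.VarClass.Obj
  Pool.Agent.H914.WeilCohomology Pool.Agent.Y133.Half Pool.Agent.Q55.Fin Pool.Agent.Q8.KC
  Pool.Agent.TH133.PW Pool.Agent.W536.RR Pool.Agent.H281R3.HT Pool.Agent.W550.B
  Pool.Agent.Q8.OL Pool.Agent.W534

variable {k : Type u} [Field k] {𝒱 : VarClass k} {ops : CycleOps 𝒱}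
  {W : WeilCohomology.{u, v} ops} {X Y Z : 𝒱.Obj}

section

variable (W) (Y) (D : Z.Cycles)

/-- The map `(x_0, ..., x_β) ↦ ∑ x_k × D ^ k`. -/
noncomputable def Jm : (Fin (Z.dim + 1) → W.H Y) →ₗ[W.K] W.H (Y.prod Z) where
  toFun x := ∑ k : Fin (Z.dim + 1), W.map (fst Y Z) (x k) * W.map (snd Y Z) (W.cl Z D ^ (k : ℕ))
  map_add' x y := by
    rw [← Finset.sum_add_distrib]
    refine Finset.sum_congr rfl fun k _ => ?_
    rw [Pi.add_apply, map_add, add_mul]
  map_smul' c x := by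
    rw [RingHom.id_apply, Finset.smul_sum]
    refine Finset.sum_congr rfl fun k _ => ?_
    rw [Pi.smul_apply, map_smul, smul_mul_assoc]

/-- The coordinates. -/
noncomputable def Rm : W.H (Y.prod Z) →ₗ[W.K] (Fin (Z.dim + 1) → W.H Y) where
  toFun z k := (W.tr Z (W.cl Z D ^ Z.dim))⁻¹ •
    W.push (fst Y Z) (z * W.map (snd Y Z) (W.cl Z D ^ (Z.dim - k)))
  map_add' x y := by
    funext k
    rw [Pi.add_apply, add_mul, map_add, smul_add]
  map_smul' c x := by
    funext k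
    rw [RingHom.id_apply, Pi.smul_apply, smul_mul_assoc, map_smul, smul_comm]

end

/-- The projector onto the powers of the divisor. -/
noncomputable def ee (W : WeilCohomology.{u, v} ops) {Z : 𝒱.Obj} (D : Z.Cycles) :
    Module.End W.K (W.H Z) :=
  (W.tr Z (W.cl Z D ^ Z.dim))⁻¹ • ∑ k ∈ Finset.range (Z.dim + 1),
    ((W.tr Z) ∘ₗ (LinearMap.mulLeft W.K (W.cl Z D ^ (Z.dim - k)))).smulRight (W.cl Z D ^ k)

variable {D : Z.Cycles}

lemma pow_top_zero (hD : Z.IsCyc 1 D) : W.cl Z D ^ (Z.dim + 1) = 0 := by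
  have h1 := pow_mem' (W.cl_mem hD) (Z.dim + 1)
  rw [W.gr_eq_bot Z _ (by omega)] at h1
  exact (Submodule.mem_bot _).1 h1

lemma ee_apply (y : W.H Z) : ee W D y = (W.tr Z (W.cl Z D ^ Z.dim))⁻¹ •
    ∑ k ∈ Finset.range (Z.dim + 1), W.tr Z (W.cl Z D ^ (Z.dim - k) * y) • W.cl Z D ^ k := by
  rw [ee, LinearMap.smul_apply, LinearMap.sum_apply]
  rfl

lemma ee_comm (hD : Z.IsCyc 1 D) : ee W D * LD W D = LD W D * ee W D := by
  apply LinearMap.ext
  intro y
  rw [Module.End.mul_apply, Module.End.mul_apply, ee_apply, ee_apply, map_smul, map_sum]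
  congr 1
  rw [Finset.sum_range_succ', Finset.sum_range_succ]
  congr 1
  · refine Finset.sum_congr rfl fun k hk => ?_
    rw [Finset.mem_range] at hk
    rw [map_smul, LinearMap.mulLeft_apply, LinearMap.mulLeft_apply, ← mul_assoc, ← pow_succ,
      ← pow_succ', show Z.dim - (k + 1) + 1 = Z.dim - k by omega]
  · rw [map_smul, LinearMap.mulLeft_apply, LinearMap.mulLeft_apply, ← mul_assoc, ← pow_succ,
      ← pow_succ', Nat.sub_zero, pow_top_zero hD, zero_mul, map_zero, zero_smul, smul_zero]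

lemma push_fst' (a : W.H Y) (b : W.H Z) :
    W.push (fst Y Z) (W.map (fst Y Z) a * W.map (snd Y Z) b) = W.tr Z b • a := by
  refine gr_induction (W.isInternal Z) (p := fun b =>
    W.push (fst Y Z) (W.map (fst Y Z) a * W.map (snd Y Z) b) = W.tr Z b • a) ?_ ?_ b
  · intro i b hb
    by_cases hi : i = 2 * Z.dim
    · subst hi
      exact push_fst a b (PH.of' (by omega) hb)
    · have h0 := W.tr_eq_zero hb hi
      rw [h0, zero_smul]
      apply W.tr_ext
      intro c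
      rw [zero_mul, map_zero, W.tr_push]
      refine gr_induction (W.isInternal Y) (p := fun c => W.tr (Y.prod Z)
        (W.map (fst Y Z) a * W.map (snd Y Z) b * W.map (fst Y Z) c) = 0) ?_ ?_ c
      · intro j c hc
        rw [mul_assoc, W.comm (W.map_mem _ hb) (W.map_mem _ hc), mul_smul_comm, ← mul_assoc,
          ← map_mul, map_smul, W.tr_prod, h0, mul_zero, smul_zero]
      · intro c c' hc hc'
        rw [map_add, mul_add, map_add, hc, hc', add_zero]
  · intro b b' hb hb'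
    rw [map_add, mul_add, map_add, hb, hb', map_add, add_smul]

lemma Jm_apply (x : Fin (Z.dim + 1) → W.H Y) : Jm W Y D x =
    ∑ k : Fin (Z.dim + 1), W.map (fst Y Z) (x k) * W.map (snd Y Z) (W.cl Z D ^ (k : ℕ)) := rfl

lemma Rm_apply (z : W.H (Y.prod Z)) (k : Fin (Z.dim + 1)) : Rm W Y D z k =
    (W.tr Z (W.cl Z D ^ Z.dim))⁻¹ •
      W.push (fst Y Z) (z * W.map (snd Y Z) (W.cl Z D ^ (Z.dim - (k : ℕ)))) := rfl

lemma Rm_tmul (a : W.H Y) (b : W.H Z) (k : Fin (Z.dim + 1)) :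
    Rm W Y D (W.map (fst Y Z) a * W.map (snd Y Z) b) k =
      (W.tr Z (W.cl Z D ^ Z.dim))⁻¹ • (W.tr Z (b * W.cl Z D ^ (Z.dim - (k : ℕ))) • a) := by
  rw [Rm_apply, mul_assoc, ← map_mul (W.map (snd Y Z)), push_fst']

lemma tr_swap (hD : Z.IsCyc 1 D) (b : W.H Z) (j : ℕ) :
    W.tr Z (b * W.cl Z D ^ j) = W.tr Z (W.cl Z D ^ j * b) := by
  rw [W.even_comm (pow_mem' (W.cl_mem hD) j)]

/-- The projector in coordinates. -/
lemma Jm_Rm (hD : Z.IsCyc 1 D) (z : W.H (Y.prod Z)) :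
    Jm W Y D (Rm W Y D z) = extOp W 1 (ee W D) z := by
  have h : Jm W Y D ∘ₗ Rm W Y D = extOp W 1 (ee W D) := by
    apply ext_kunneth_lin
    intro a b
    rw [LinearMap.comp_apply, extOp_tmul, Module.End.one_apply, ee_apply, map_smul, map_sum,
      mul_smul_comm, Finset.mul_sum, Finset.smul_sum, Jm_apply]
    rw [← Fin.sum_univ_eq_sum_range (fun k => (W.tr Z (W.cl Z D ^ Z.dim))⁻¹ •
      (W.map (fst Y Z) a *
        W.map (snd Y Z) (W.tr Z (W.cl Z D ^ (Z.dim - k) * b) • W.cl Z D ^ k))) (Z.dim + 1)]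
    refine Finset.sum_congr rfl fun k _ => ?_
    rw [Rm_tmul, map_smul, map_smul, smul_mul_assoc, smul_mul_assoc, tr_swap hD, map_smul,
      mul_smul_comm]
  exact congrArg (fun f => f z) h

/-- The classes of the combinations are combinations of powers of the divisor. -/
lemma Rm_Jm [Nontrivial (W.H Z)] (hZ : IsLefschetzDivisor W Z D) (x : Fin (Z.dim + 1) → W.H Y) :
    Rm W Y D (Jm W Y D x) = x := by
  have h0 := tr_top_ne hZ.2
  funext k
  rw [Jm_apply, map_sum, Finset.sum_apply, Finset.sum_eq_single k]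
  · rw [Rm_tmul, ← pow_add, show (k : ℕ) + (Z.dim - k) = Z.dim by omega, smul_smul,
      inv_mul_cancel₀ h0, one_smul]
  · intro j _ hj
    have hj' : (j : ℕ) ≠ k := fun h => hj (Fin.ext h)
    rw [Rm_tmul, ← pow_add, W.tr_eq_zero (pow_mem' (W.cl_mem hZ.1) ((j : ℕ) + (Z.dim - k)))
      (by omega), zero_smul, smul_zero]
  · intro h
    exact absurd (Finset.mem_univ _) h

lemma grZ_map (f : X ⟶ Y) {a : ℤ} {x : W.H Y} (hx : x ∈ grZ (W.gr Y) a) :
    W.map f x ∈ grZ (W.gr X) a := by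
  by_cases ha : a < 0
  · rw [grZ_of_neg ha] at hx
    rw [(Submodule.mem_bot _).1 hx, map_zero]
    exact Submodule.zero_mem _
  · lift a to ℕ using (by omega)
    rw [grZ_natCast] at hx ⊢
    exact W.map_mem f hx

lemma grZ_mul {a b : ℤ} {x y : W.H Y} (hx : x ∈ grZ (W.gr Y) a) (hy : y ∈ grZ (W.gr Y) b) :
    x * y ∈ grZ (W.gr Y) (a + b) := by
  by_cases ha : a < 0
  · rw [grZ_of_neg ha] at hx
    rw [(Submodule.mem_bot _).1 hx, zero_mul]
    exact Submodule.zero_mem _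
  by_cases hb : b < 0
  · rw [grZ_of_neg hb] at hy
    rw [(Submodule.mem_bot _).1 hy, mul_zero]
    exact Submodule.zero_mem _
  lift a to ℕ using (by omega)
  lift b to ℕ using (by omega)
  rw [grZ_natCast] at hx hy
  rw [← Nat.cast_add, grZ_natCast]
  exact W.mul_mem hx hy

lemma grZ_push (f : X ⟶ Y) {a : ℤ} {x : W.H X} (hx : x ∈ grZ (W.gr X) a) :
    W.push f x ∈ grZ (W.gr Y) (a + 2 * ((Y.dim : ℤ) - X.dim)) := by
  by_cases ha : a < 0
  · rw [grZ_of_neg ha] at hx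
    rw [(Submodule.mem_bot _).1 hx, map_zero]
    exact Submodule.zero_mem _
  · lift a to ℕ using (by omega)
    rw [grZ_natCast] at hx
    exact W.push_mem f hx

lemma sc_map (f : X ⟶ Y) {a : ℤ} {x : W.H Y} (hx : x ∈ spanCycles W Y a) :
    W.map f x ∈ spanCycles W X a := by
  rw [mem_sc] at hx ⊢
  exact ⟨(linS W).map f hx.1, grZ_map f hx.2⟩

lemma sc_mul {a b : ℤ} {x y : W.H Y} (hx : x ∈ spanCycles W Y a) (hy : y ∈ spanCycles W Y b) :
    x * y ∈ spanCycles W Y (a + b) := by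
  rw [mem_sc] at hx hy ⊢
  refine ⟨(linS W).mul hx.1 hy.1, ?_⟩
  rw [mul_add]
  exact grZ_mul hx.2 hy.2

lemma sc_push (f : X ⟶ Y) {a : ℤ} {x : W.H X} (hx : x ∈ spanCycles W X a) :
    W.push f x ∈ spanCycles W Y (a + ((Y.dim : ℤ) - X.dim)) := by
  rw [mem_sc] at hx ⊢
  refine ⟨(linS W).push f hx.1, ?_⟩
  rw [mul_add]
  exact grZ_push f hx.2

lemma sc_pow (hD : Z.IsCyc 1 D) (j : ℕ) : W.cl Z D ^ j ∈ spanCycles W Z j := by
  rw [mem_sc]
  refine ⟨pow_C (T := linS W) (cl_alg hD) j, ?_⟩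
  rw [show (2 * (j : ℤ)) = ((2 * j : ℕ) : ℤ) by push_cast; ring, grZ_natCast]
  exact pow_mem' (W.cl_mem hD) j

lemma Jm_sc (hD : Z.IsCyc 1 D) {a : ℤ} {x : Fin (Z.dim + 1) → W.H Y}
    (hx : ∀ k : Fin (Z.dim + 1), x k ∈ spanCycles W Y (a - ((k : ℕ) : ℤ))) :
    Jm W Y D x ∈ spanCycles W (Y.prod Z) a := by
  rw [Jm_apply]
  refine Submodule.sum_mem _ fun k _ => ?_
  have h1 := sc_mul (sc_map (fst Y Z) (hx k)) (sc_map (snd Y Z) (sc_pow hD k))
  rwa [sub_add_cancel] at h1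

lemma Rm_sc (hD : Z.IsCyc 1 D) {a : ℤ} {z : W.H (Y.prod Z)}
    (hz : z ∈ spanCycles W (Y.prod Z) a) (k : Fin (Z.dim + 1)) :
    Rm W Y D z k ∈ spanCycles W Y (a - (k : ℕ)) := by
  rw [Rm_apply]
  refine Submodule.smul_mem _ _ ?_
  have h1 := sc_push (fst Y Z) (sc_mul hz (sc_map (snd Y Z) (sc_pow hD (Z.dim - (k : ℕ)))))
  have hk := k.2
  have h2 := dim_prod Y Z
  rwa [show a + ((Z.dim - (k : ℕ) : ℕ) : ℤ) + ((Y.dim : ℤ) - (Y.prod Z).dim) = a - (k : ℕ) by
    omega] at h1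

/-- **One factor.** -/
theorem defect_step [Nontrivial (W.H Z)] {B : Y.Cycles} (hY : IsLefschetzDivisor W Y B)
    (hZ : IsLefschetzDivisor W Z D) {p : ℤ} (hp : 2 * p ≤ (Y.prod Z).dim) :
    ∑ k ∈ Finset.range (Z.dim + 1), defect W Y (p - k) ≤ defect W (Y.prod Z) p := by
  have hP := Pool.Agent.Q55.Oc.isLefschetzDivisor_prod hY hZ
  have hd := dim_prod Y Z
  have hJinj : ∀ x, Jm W Y D x = 0 → x = 0 := fun x hx => by
    rw [← Rm_Jm hZ x, hx, map_zero]
  have hfr : ∀ a : ℤ, finrank W.K ((Submodule.pi Set.univ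
      (fun k : Fin (Z.dim + 1) => spanCycles W Y (a - (k : ℕ)))).map (Jm W Y D)) =
      ∑ k ∈ Finset.range (Z.dim + 1), cycleRank W Y (a - k) := by
    intro a
    rw [finrank_map_injOn _ _ (fun x _ hx => hJinj x hx), finrank_pi_sub,
      Fin.sum_univ_eq_sum_range (fun k : ℕ => finrank W.K (spanCycles W Y (a - k)))]
    rfl
  have hsum : ∑ k ∈ Finset.range (Z.dim + 1), defect W Y (p - k) =
      ((∑ k ∈ Finset.range (Z.dim + 1), cycleRank W Y ((Y.prod Z).dim - p - k) : ℕ) : ℤ) -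
        ((∑ k ∈ Finset.range (Z.dim + 1), cycleRank W Y (p - k) : ℕ) : ℤ) := by
    unfold defect
    rw [Finset.sum_sub_distrib]
    push_cast
    congr 1
    rw [← Finset.sum_range_reflect]
    refine Finset.sum_congr rfl fun j hj => ?_
    rw [Finset.mem_range] at hj
    congr 2
    omega
  rw [hsum]
  unfold defect
  suffices h : cycleRank W (Y.prod Z) p +
      ∑ k ∈ Finset.range (Z.dim + 1), cycleRank W Y ((Y.prod Z).dim - p - k) ≤
      cycleRank W (Y.prod Z) ((Y.prod Z).dim - p) +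
        ∑ k ∈ Finset.range (Z.dim + 1), cycleRank W Y (p - k) by
    have h' : ((cycleRank W (Y.prod Z) p +
      ∑ k ∈ Finset.range (Z.dim + 1), cycleRank W Y ((Y.prod Z).dim - p - k) : ℕ) : ℤ) ≤
      ((cycleRank W (Y.prod Z) ((Y.prod Z).dim - p) +
        ∑ k ∈ Finset.range (Z.dim + 1), cycleRank W Y (p - k) : ℕ) : ℤ) := by exact_mod_cast h
    rw [Nat.cast_add, Nat.cast_add] at h'
    linarith
  rw [← hfr, ← hfr]
  by_cases h0 : p < 0
  · have e1 : cycleRank W (Y.prod Z) p = 0 := by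
      unfold cycleRank
      rw [sc_bot (Or.inl h0), finrank_bot]
    rw [e1, zero_add]
    refine le_trans (Submodule.finrank_mono ?_) (Nat.le_add_right _ _)
    rintro _ ⟨x, hx, rfl⟩
    exact Jm_sc hZ.1 fun k => hx k (Set.mem_univ _)
  lift p to ℕ using (by omega)
  refine finrank_four (T := LD W (bs ops B D) ^ ((Y.prod Z).dim - 2 * p)) ?_ ?_ ?_ ?_
  · intro x hx
    have h1 := LD_sc hP.1 hx ((Y.prod Z).dim - 2 * p)
    rwa [show (p : ℤ) + (((Y.prod Z).dim - 2 * p : ℕ) : ℤ) = (Y.prod Z).dim - p by omega] at h1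
  · intro x hx h0
    exact hlZ_inj hP.2 (by omega) (mem_sc.1 hx).2 h0
  · rintro _ ⟨x, hx, rfl⟩
    exact Jm_sc hZ.1 fun k => hx k (Set.mem_univ _)
  · rintro z hz ⟨y, hy, hyz⟩
    have hR : ∀ k : Fin (Z.dim + 1), Rm W Y D z k ∈ spanCycles W Y ((p : ℤ) - ((k : ℕ) : ℤ)) :=
      Rm_sc hZ.1 hz
    refine ⟨Rm W Y D z, fun k _ => hR k, ?_⟩
    have hc : Commute (LD W (bs ops B D) ^ ((Y.prod Z).dim - 2 * p)) (extOp W 1 (ee W D)) := by
      apply Commute.pow_left
      show _ * _ = _ * _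
      rw [LD_bs hZ.1, add_mul, mul_add, extOp_mul, extOp_mul, extOp_mul, extOp_mul,
        ee_comm hZ.1]
      simp only [one_mul, mul_one]
    have h1 : (LD W (bs ops B D) ^ ((Y.prod Z).dim - 2 * p)) (Jm W Y D (Rm W Y D z)) =
        (LD W (bs ops B D) ^ ((Y.prod Z).dim - 2 * p)) z := by
      rw [Jm_Rm hZ.1, ← Module.End.mul_apply, hc.eq, Module.End.mul_apply, ← hyz, ← Jm_Rm hZ.1,
        Rm_Jm hZ]
    have h2 := hlZ_inj hP.2 (p := p) (a := Jm W Y D (Rm W Y D z) - z) (by omega)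
      (Submodule.sub_mem _ (mem_sc.1 (Jm_sc hZ.1 hR)).2 (mem_sc.1 hz).2) (by
        rw [map_sub, h1, sub_self])
    exact sub_eq_zero.1 h2

/-- If all classes of `Z` are combinations of the powers of the divisor. -/
lemma ee_one [Nontrivial (W.H Z)] (hZ : IsLefschetzDivisor W Z D)
    (hr : finrank W.K (W.H Z) = Z.dim + 1) : ee W D = 1 := by
  have h0 := tr_top_ne hZ.2
  have hpow : ∀ j : Fin (Z.dim + 1), ee W D (W.cl Z D ^ (j : ℕ)) = W.cl Z D ^ (j : ℕ) := by
    intro j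
    rw [ee_apply, Finset.sum_eq_single (j : ℕ)]
    · rw [← pow_add, show Z.dim - (j : ℕ) + j = Z.dim by omega, smul_smul, inv_mul_cancel₀ h0,
        one_smul]
    · intro k hk hkj
      rw [Finset.mem_range] at hk
      rw [← pow_add, W.tr_eq_zero (pow_mem' (W.cl_mem hZ.1) (Z.dim - k + j)) (by omega), zero_smul]
    · intro h
      exact absurd (Finset.mem_range.2 j.2) h
  have hli : LinearIndependent W.K (fun j : Fin (Z.dim + 1) => W.cl Z D ^ (j : ℕ)) := by
    rw [Fintype.linearIndependent_iff]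
    intro g hg j
    have h1 : W.tr Z ((∑ i : Fin (Z.dim + 1), g i • W.cl Z D ^ (i : ℕ)) *
        W.cl Z D ^ (Z.dim - (j : ℕ))) = 0 := by
      rw [hg, zero_mul, map_zero]
    rw [Finset.sum_mul, map_sum, Finset.sum_eq_single j] at h1
    · rw [smul_mul_assoc, ← pow_add, show (j : ℕ) + (Z.dim - j) = Z.dim by omega, map_smul,
        smul_eq_mul] at h1
      exact (mul_eq_zero.1 h1).resolve_right h0
    · intro i _ hij
      have hij' : (i : ℕ) ≠ j := fun h => hij (Fin.ext h)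
      rw [smul_mul_assoc, ← pow_add, map_smul,
        W.tr_eq_zero (pow_mem' (W.cl_mem hZ.1) ((i : ℕ) + (Z.dim - j))) (by omega), smul_zero]
    · intro h
      exact absurd (Finset.mem_univ _) h
  have hspan := hli.span_eq_top_of_card_eq_finrank' (by rw [Fintype.card_fin, hr])
  apply LinearMap.ext_on hspan
  rintro _ ⟨j, rfl⟩
  exact hpow j

/-- **One factor: the case of equality.** -/
theorem defect_step_eq [Nontrivial (W.H Z)] (hZ : IsLefschetzDivisor W Z D)
    (hr : finrank W.K (W.H Z) = Z.dim + 1) (p : ℤ) :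
    defect W (Y.prod Z) p = ∑ k ∈ Finset.range (Z.dim + 1), defect W Y (p - k) := by
  have hd := dim_prod Y Z
  have hJinj : ∀ x, Jm W Y D x = 0 → x = 0 := fun x hx => by
    rw [← Rm_Jm hZ x, hx, map_zero]
  have hc : ∀ a : ℤ, cycleRank W (Y.prod Z) a =
      ∑ k ∈ Finset.range (Z.dim + 1), cycleRank W Y (a - k) := by
    intro a
    have h1 : spanCycles W (Y.prod Z) a = (Submodule.pi Set.univ
        (fun k : Fin (Z.dim + 1) => spanCycles W Y (a - (k : ℕ)))).map (Jm W Y D) := by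
      apply le_antisymm
      · intro z hz
        refine ⟨Rm W Y D z, fun k _ => Rm_sc hZ.1 hz k, ?_⟩
        rw [Jm_Rm hZ.1, ee_one hZ hr, extOp_one]
        rfl
      · rintro _ ⟨x, hx, rfl⟩
        exact Jm_sc hZ.1 fun k => hx k (Set.mem_univ _)
    unfold cycleRank
    rw [h1, finrank_map_injOn _ _ (fun x _ hx => hJinj x hx), finrank_pi_sub,
      Fin.sum_univ_eq_sum_range (fun k : ℕ => finrank W.K (spanCycles W Y (a - k)))]
  unfold defect
  rw [hc, hc, Finset.sum_sub_distrib]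
  push_cast
  congr 1
  rw [← Finset.sum_range_reflect]
  refine Finset.sum_congr rfl fun j hj => ?_
  rw [Finset.mem_range] at hj
  congr 2
  omega

end Pool.Agent.Q8.GP
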