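import Mathlib

/-!
# The number of solutions of `k_1 + ... + k_r = K` in boxes
-/

namespace Pool.Agent.Q8.GP

/-- The number of solutions of `k_0 + ... + k_(r-1) = K` in integers `0 ≤ k_i ≤ β i`. -/
def sols (β : ℕ → ℕ) : ℕ → ℤ → ℕ
  | 0, K => if K = 0 then 1 else 0
  | r + 1, K => ∑ k ∈ Finset.range (β r + 1), sols β r (K - k)

end Pool.Agent.Q8.GP
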