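import Pool.Agent.Q8.OL.Pw
import Pool.Agent.W534.Uni
import Pool.Agent.Q8.GP.Defs

/-!
# The defect of a product
-/

open CategoryTheory AlgebraicGeometry

universe u v

namespace Pool.Agent.Q8.GP

open Module
open Pool.Agent.H914 Pool.Agent.H914.VarClass Pool.Agent.H914.VarClass.Obj
  Pool.Agent.H914.WeilCohomology Pool.Agent.Y133.Half Pool.Agent.Q55.Fin Pool.Agent.Q8.KC
  Pool.Agent.TH133.PW Pool.Agent.W536.RR Pool.Agent.H281R3.HT Pool.Agent.W550.B
  Pool.Agent.Q8.OL Pool.Agent.W534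

variable {k : Type u} [Field k] {𝒱 : VarClass k} {ops : CycleOps 𝒱}
  {W : WeilCohomology.{u, v} ops} {X Y Z : 𝒱.Obj}

/-- The homogeneous parts of a combination of algebraic classes. -/
lemma proj_mem_span {c : W.H Y} (hc : c ∈ algSpan W Y) (q : ℕ) :
    proj (W.isInternal Y) (2 * q) c ∈ spanCycles W Y q := by
  refine algSpan_induction (p := fun c => proj (W.isInternal Y) (2 * q) c ∈ spanCycles W Y q)
    ?_ ?_ ?_ ?_ hc
  · rw [map_zero]; exact Submodule.zero_mem _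
  · intro a b ha hb; rw [map_add]; exact Submodule.add_mem _ ha hb
  · intro t a ha; rw [map_smul]; exact Submodule.smul_mem _ _ ha
  · intro j z hz
    by_cases hj : j = q
    · subst hj
      rw [proj_same _ (W.cl_mem hz)]
      exact Submodule.subset_span ⟨j, rfl, z, hz, rfl⟩
    · rw [proj_ne _ (W.cl_mem hz) (by omega)]
      exact Submodule.zero_mem _

lemma mem_sc {a : ℤ} {x : W.H Y} :
    x ∈ spanCycles W Y a ↔ x ∈ algSpan W Y ∧ x ∈ grZ (W.gr Y) (2 * a) := by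
  constructor
  · intro hx
    refine Submodule.span_induction (p := fun x _ => x ∈ algSpan W Y ∧ x ∈ grZ (W.gr Y) (2 * a))
      ?_ ?_ ?_ ?_ hx
    · rintro _ ⟨p, rfl, z, hz, rfl⟩
      refine ⟨cl_alg hz, ?_⟩
      rw [show (2 * (p : ℤ)) = ((2 * p : ℕ) : ℤ) by push_cast; ring, grZ_natCast]
      exact W.cl_mem hz
    · exact ⟨Submodule.zero_mem _, Submodule.zero_mem _⟩
    · intro a b _ _ ha hb
      exact ⟨Submodule.add_mem _ ha.1 hb.1, Submodule.add_mem _ ha.2 hb.2⟩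
    · intro t a _ ha
      exact ⟨Submodule.smul_mem _ _ ha.1, Submodule.smul_mem _ _ ha.2⟩
  · rintro ⟨h1, h2⟩
    by_cases ha : a < 0
    · rw [grZ_of_neg (by omega)] at h2
      rw [(Submodule.mem_bot _).1 h2]
      exact Submodule.zero_mem _
    · lift a to ℕ using (by omega)
      rw [show (2 * (a : ℤ)) = ((2 * a : ℕ) : ℤ) by push_cast; ring, grZ_natCast] at h2
      have h3 := proj_mem_span h1 a
      rwa [proj_same _ h2] at h3

lemma sc_bot {a : ℤ} (h : a < 0 ∨ (Y.dim : ℤ) < a) : spanCycles W Y a = ⊥ := by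
  rw [eq_bot_iff]
  intro x hx
  have h1 := (mem_sc.1 hx).2
  rcases h with h | h
  · rwa [grZ_of_neg (by omega)] at h1
  · obtain ⟨b, hb⟩ : ∃ b : ℕ, (b : ℤ) = 2 * a := ⟨(2 * a).toNat, by omega⟩
    rwa [← hb, grZ_natCast, W.gr_eq_bot Y b (by omega)] at h1

lemma defect_odd (p : ℤ) : defect W Y (Y.dim - p) = -defect W Y p := by
  unfold defect
  rw [sub_sub_cancel]
  ring

lemma LD_sc {D : Y.Cycles} (hD : Y.IsCyc 1 D) {a : ℤ} {x : W.H Y} (hx : x ∈ spanCycles W Y a)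
    (s : ℕ) : (LD W D ^ s) x ∈ spanCycles W Y (a + s) := by
  rw [mem_sc] at hx ⊢
  refine ⟨?_, ?_⟩
  · rw [LinearMap.pow_mulLeft, LinearMap.mulLeft_apply]
    exact (algSys W).mul (pow_C (T := linS W) (cl_alg hD) s) hx.1
  · have h1 := LD_pow_mem hD s hx.2
    rwa [show 2 * a + 2 * s = 2 * (a + s) by ring] at h1

lemma hlZ_inj {B : Y.Cycles} (hHL : HardLefschetz W Y B) {p : ℕ} (hp : 2 * p ≤ Y.dim) {a : W.H Y}
    (ha : a ∈ grZ (W.gr Y) (2 * (p : ℤ))) (h0 : (LD W B ^ (Y.dim - 2 * p)) a = 0) : a = 0 := by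
  rw [show (2 * (p : ℤ)) = ((2 * p : ℕ) : ℤ) by push_cast; ring, grZ_natCast] at ha
  exact (hHL (2 * p) hp).1 a ha h0

/-- The defect is not negative in the lower half. -/
lemma defect_nonneg {B : Y.Cycles} (hY : IsLefschetzDivisor W Y B) {p : ℤ} (hp : 2 * p ≤ Y.dim) :
    0 ≤ defect W Y p := by
  unfold defect cycleRank
  by_cases h0 : p < 0
  · rw [sc_bot (Y := Y) (a := p) (Or.inl h0), finrank_bot]
    simp
  · lift p to ℕ using (by omega)
    rw [sub_nonneg, Nat.cast_le]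
    rw [← finrank_map_injOn (LD W B ^ (Y.dim - 2 * p)) (spanCycles W Y p)
      (fun x hx h0 => hlZ_inj hY.2 (by omega) (mem_sc.1 hx).2 h0)]
    apply Submodule.finrank_mono
    rintro _ ⟨x, hx, rfl⟩
    have h1 := LD_sc hY.1 hx (Y.dim - 2 * p)
    rwa [show (p : ℤ) + ((Y.dim - 2 * p : ℕ) : ℤ) = Y.dim - p by omega] at h1

/-- The linear algebra. -/
lemma finrank_four {K V : Type*} [Field K] [AddCommGroup V] [Module K V] [FiniteDimensional K V]
    {N N' S S' : Submodule K V} {T : V →ₗ[K] V} (hT : ∀ x ∈ N, T x ∈ N')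
    (hinj : ∀ x ∈ N, T x = 0 → x = 0) (hS' : S' ≤ N') (hz : ∀ z ∈ N, T z ∈ S' → z ∈ S) :
    finrank K N + finrank K S' ≤ finrank K N' + finrank K S := by
  have h1 := Submodule.finrank_sup_add_finrank_inf_eq (N.map T) S'
  have h2 : finrank K (N.map T) = finrank K N := finrank_map_injOn T N hinj
  have h3 : finrank K ((N.map T ⊔ S' : Submodule K V)) ≤ finrank K N' := by
    apply Submodule.finrank_mono
    apply sup_le _ hS'
    rintro _ ⟨x, hx, rfl⟩
    exact hT x hx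
  have h4 : finrank K ((N.map T ⊓ S' : Submodule K V)) ≤ finrank K S := by
    refine le_trans (Submodule.finrank_mono (t := S.map T) ?_) (Submodule.finrank_map_le _ _)
    rintro _ ⟨⟨z, hz1, rfl⟩, hz2⟩
    exact ⟨z, hz z hz1 hz2, rfl⟩
  omega

end Pool.Agent.Q8.GP
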